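import Pool.Agent.Q7.GK.Stm
import Pool.Agent.Q265.LK.Bas

/-! Project GK (helper7), job GLCN: the local classes `AXG` (template: `Q252.LS.lcn` by helper252). -/

set_option autoImplicit false

namespace Pool.Agent.Q190.GK

open NumberField IsDedekindDomain Filter Topology Finset
open Pool.Agent.Q283.LQ (Sm Box Nest nS)
open Pool.Agent.Q7.LK
open Pool.Agent.Q7.LS (LocN Ao cX)
open Pool.Agent.Q7.GK
open Pool.Agent.Q265.LK
open Pool.Agent.W289.SL (IsIwasawaLog)

/-- JOB GLCN -/
theorem glcn (hB : S_BAS) (hN : S_AUN) (hC : S_AUC) : S_GNUM → S_GLCN := by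
  classical
  intro hGN p _ hp2 Lg hLg F _ _ ζ hζ y hy G hG D0 hD0
  have hp : p.Prime := Fact.out
  refine ⟨fun v a _ h => h.ne, ?_, ?_, ?_, ?_⟩
  · -- mul
    intro v a b hv ha hb
    have hb0 : b ≠ 0 := lpw_ne hB hb
    refine ⟨mul_ne_zero ha.ne hb0, ?_, ?_, ?_⟩
    · intro hvG hvD
      exact (hGN p hp2 Lg hLg F ζ hζ v (hG v hvG)).1 a b (ha.inG hvG hvD) hb
    · intro hvp hn
      exact (hC p hp2 F v D0 hD0).1 a b (ha.inp hvp hn) hb
    · intro hvp
      obtain ⟨h1, h2, h3⟩ := ha.out hvp
      refine ⟨mul_ne_zero h1 hb0, ?_, ?_⟩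
      · intro h
        rw [vl_mul hB v h1 hb0, h2 h, lpw_vl hB hb, add_zero]
      · intro h
        obtain ⟨j, hj⟩ := h3 h
        refine ⟨j, ?_⟩
        have h4 := lpw_mul hB hj hb
        have h5 : a * D0 ^ j * b = a * b * D0 ^ j := by ring
        rwa [h5] at h4
  · -- clo
    intro v a hv ha
    refine ⟨mul_ne_zero ha.ne hD0, ?_, ?_, ?_⟩
    · intro hvG hvD
      exact (hGN p hp2 Lg hLg F ζ hζ v (hG v hvG)).1 a D0 (ha.inG hvG hvD) hvD
    · intro hvp hn
      exact (hC p hp2 F v D0 hD0).2.2.1 a (ha.inp hvp hn)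
    · intro hvp
      obtain ⟨h1, h2, h3⟩ := ha.out hvp
      refine ⟨mul_ne_zero h1 hD0, ?_, ?_⟩
      · intro h
        rw [vl_mul hB v h1 hD0, h2 h, h, add_zero]
      · intro h
        obtain ⟨j, hj⟩ := h3 h
        refine ⟨j + (p - 1), ?_⟩
        have h4 := lpw_mul hB hj (lpw_pow (p := p) hB v hD0)
        have h5 : a * D0 ^ j * D0 ^ p = a * D0 * D0 ^ (j + (p - 1)) := by
          have h6 : D0 ^ p = D0 * D0 ^ (p - 1) := by
            rw [← pow_succ', Nat.sub_add_cancel hp.one_le]
          rw [h6, pow_add]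
          ring
        rwa [h5] at h4
  · -- num
    intro v hv B hBA hBn
    have h1 : cX p y ∅ ∅ D0 v = dv p v := by
      unfold cX
      rw [if_neg (by rintro (h | h); exacts [h, h hv]), if_neg (fun h => h.1)]
    rw [h1]
    by_cases hvG : v ∈ G ∧ Lpw p v D0
    · exact (hGN p hp2 Lg hLg F ζ hζ v (hG v hvG.1)).2 B (fun b hb => (hBA b hb).inG hvG.1 hvG.2) hBn
    · by_cases hvp : Dp p v
      · exact hN p hp2 F ζ hζ v D0 hD0 B (fun b hb => (hBA b hb).inp hvp hvG) hBn
      · have h2 : dv p v = 0 := by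
          unfold dv
          rw [if_neg hvp]
        rw [h2, zero_add, pow_one]
        have hcard : (Finset.univ : Finset (ZMod p)).card = p := by
          rw [Finset.card_univ, ZMod.card]
        have hAo : ∀ b ∈ B, Ao p v D0 b := fun b hb => (hBA b hb).out hvp
        by_cases hod : vl p v D0 = 0
        · refine (Finset.card_le_card_of_injOn (fun b => sy p ζ v b) (fun _ _ => Finset.mem_univ _)
            ?_).trans hcard.le
          intro b hb b' hb' hbb
          by_contra hne'
          obtain ⟨hb1, h1, -⟩ := hAo b hb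
          obtain ⟨hb2, h2', -⟩ := hAo b' hb'
          have h1 := h1 hod
          have h2 := h2' hod
          have h3 : vl p v (b / b') = 0 := by rw [vl_div hB v hb1 hb2, h1, h2, sub_zero]
          refine hBn b hb b' hb' hne' ((sy_zero_iff hB hvp hζ (div_ne_zero hb1 hb2) h3).1 ?_)
          have h4 : sy p ζ v b = sy p ζ v b' := hbb
          rw [sy_div hB hvp hζ hb1 hb2 h1 h2, h4, sub_self]
        · have hex : ∀ b : F, ∃ j : ℕ, b ∈ B → Lpw p v (b * D0 ^ j) := by
            intro b
            by_cases hb : b ∈ B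
            · obtain ⟨j, hj⟩ := (hAo b hb).2.2 hod
              exact ⟨j, fun _ => hj⟩
            · exact ⟨0, fun h => absurd h hb⟩
          choose j hj using hex
          refine (Finset.card_le_card_of_injOn (fun b => (j b : ZMod p)) (fun _ _ => Finset.mem_univ _)
            ?_).trans hcard.le
          intro b hb b' hb' hbb
          by_contra hne'
          have hb1 := (hAo b hb).1
          have hb2 := (hAo b' hb').1
          refine hBn b hb b' hb' hne' ?_
          have h4 : ((j b' : ℕ) : ZMod p) = (j b : ℕ) := hbb.symm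
          have h5 := lpw_mul hB (lpw_div hB (hj b hb) (hj b' hb')) (lpw_pow_div hB v hD0 h4)
          have h6 : b * D0 ^ j b / (b' * D0 ^ j b') * (D0 ^ j b' / D0 ^ j b) = b / b' := by
            have h7 := pow_ne_zero (j b) hD0
            have h8 := pow_ne_zero (j b') hD0
            field_simp
          rwa [h6] at h5
  · -- zero
    intro v hv
    unfold cX
    rw [if_pos (Or.inr hv)]

end Pool.Agent.Q190.GK
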