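import Pool.Agent.Q7.GK.Stm
import Pool.Agent.Q265.LK.Bas

/-! Project GK (helper7), job GNUM: the number of the local classes with small logarithm. -/

set_option autoImplicit false

namespace Pool.Agent.Q190.GK

open NumberField IsDedekindDomain Filter Topology Finset
open Pool.Agent.Q7.LK Pool.Agent.Q7.GK
open Pool.Agent.Q265.LK
open Pool.Agent.W289.SL (IsIwasawaLog)

section

variable {p : ℕ} [hp : Fact p.Prime]

theorem norm_int (k : ℤ) : ‖(k : ℂ_[p])‖ = ‖(k : ℚ_[p])‖ := by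
  have h := PadicComplex.norm_extends' (p := p) (k : ℚ_[p])
  rw [← h]
  congr 1
  exact (map_intCast (algebraMap ℚ_[p] ℂ_[p]) k).symm

theorem norm_p_lt : ‖(p : ℂ_[p])‖ < 1 := by
  have h := norm_int (p := p) (p : ℤ)
  rw [Int.cast_natCast, Int.cast_natCast] at h
  rw [h]
  exact Padic.norm_p_lt_one

theorem norm_p_pos : 0 < ‖(p : ℂ_[p])‖ := by
  rw [norm_pos_iff]
  exact Nat.cast_ne_zero.2 hp.out.ne_zero

theorem dvd_of_norm_le {k : ℤ} (h : ‖(k : ℂ_[p])‖ ≤ ‖(p : ℂ_[p])‖) : (p : ℤ) ∣ k := by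
  rw [← Padic.norm_intCast_lt_one_iff, ← norm_int]
  exact lt_of_le_of_lt h norm_p_lt

theorem ultra (x y : ℂ_[p]) {c : ℝ} (hx : ‖x‖ ≤ c) (hy : ‖y‖ ≤ c) : ‖x + y‖ ≤ c :=
  (PadicComplex.isNonarchimedean (p := p) x y).trans (max_le hx hy)

theorem ultra_sub (x y : ℂ_[p]) {c : ℝ} (hx : ‖x‖ ≤ c) (hy : ‖y‖ ≤ c) : ‖x - y‖ ≤ c := by
  rw [sub_eq_add_neg]
  exact ultra x (-y) hx (by rwa [norm_neg])

end

section

variable {p : ℕ} [hp : Fact p.Prime] {F : Type} [Field F] [NumberField F]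

/-- elements which are local `p`-th powers have small logarithm -/
theorem lam_lpw {Lg : ℂ_[p] → ℂ_[p]} {v : HeightOneSpectrum (𝓞 F)}
    (hmul : ∀ x y : F, x ≠ 0 → y ≠ 0 → lam Lg v (x * y) = lam Lg v x + lam Lg v y)
    (hcon : ∀ N : ℕ, ∃ M : ℕ, ∀ x : F, v.valuation F (x - 1) ≤ v.valuation F ((p : F) ^ M) →
      ‖lam Lg v x‖ ≤ ‖(p : ℂ_[p])‖ ^ N)
    {x₀ : F} (h0 : lam Lg v x₀ ≠ 0) (hmax : ∀ x : F, x ≠ 0 → ‖lam Lg v x‖ ≤ ‖lam Lg v x₀‖) {b : F}
    (hb0 : b ≠ 0) (hb : Lpw p v b) : ‖lam Lg v b‖ ≤ ‖(p : ℂ_[p])‖ * ‖lam Lg v x₀‖ := by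
  have hpos : 0 < ‖(p : ℂ_[p])‖ * ‖lam Lg v x₀‖ := mul_pos norm_p_pos (norm_pos_iff.2 h0)
  obtain ⟨N, hN⟩ := exists_pow_lt_of_lt_one hpos (norm_p_lt (p := p))
  obtain ⟨M, hM⟩ := hcon N
  have hpF : (p : F) ≠ 0 := Nat.cast_ne_zero.2 hp.out.ne_zero
  have hvp : v.valuation F ((p : F) ^ M) ≠ 0 := (Valuation.ne_zero_iff _).2 (pow_ne_zero _ hpF)
  obtain ⟨x, hx⟩ := hb (WithZero.log (v.valuation F ((p : F) ^ M))).natAbs
  have h1 : v.valuation F (b * x ^ p - 1) ≤ v.valuation F ((p : F) ^ M) := by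
    refine hx.le.trans ?_
    rw [← WithZero.exp_log hvp, WithZero.exp_le_exp]
    rw [WithZero.log_exp]
    omega
  have hx0 : x ≠ 0 := by
    rintro rfl
    rw [zero_pow hp.out.ne_zero, mul_zero, zero_sub, Valuation.map_neg, map_one] at hx
    have h2 : WithZero.exp (-((WithZero.log (v.valuation F ((p : F) ^ M))).natAbs : ℤ)) ≤
        (1 : WithZero (Multiplicative ℤ)) := by
      rw [← WithZero.exp_zero, WithZero.exp_le_exp]
      omega
    exact absurd hx (not_lt.2 h2)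
  have hpow : ∀ n : ℕ, lam Lg v (x ^ (n + 1)) = ((n + 1 : ℕ) : ℂ_[p]) * lam Lg v x := by
    intro n
    induction n with
    | zero => simp
    | succ n ih =>
      rw [pow_succ, hmul _ _ (pow_ne_zero _ hx0) hx0, ih]
      push_cast
      ring
  have h2 : lam Lg v (x ^ p) = (p : ℂ_[p]) * lam Lg v x := by
    obtain ⟨q, hq⟩ : ∃ q, p = q + 1 := ⟨p - 1, (Nat.succ_pred_eq_of_pos hp.out.pos).symm⟩
    have h3 := hpow q
    rw [← hq] at h3
    exact h3
  have h3 : lam Lg v b = lam Lg v (b * x ^ p) - (p : ℂ_[p]) * lam Lg v x := by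
    rw [hmul _ _ hb0 (pow_ne_zero _ hx0), h2]
    ring
  rw [h3]
  refine ultra_sub _ _ ((hM _ h1).trans hN.le) ?_
  rw [norm_mul]
  exact mul_le_mul_of_nonneg_left (hmax x hx0) (norm_nonneg _)

end

/-- JOB GNUM -/
theorem gnum (hB : S_BAS) (hV : S_LOCV) : S_GQ → S_GC → S_GNUM := by
  classical
  intro hGQ hGC p hp hp2 Lg hLg F _ _ ζ hζ v hv
  obtain ⟨hmul, _⟩ := hGQ p hp2 Lg hLg F v hv
  obtain ⟨hcon, x₀, hx₀, h0, hmax⟩ := hGC p hp2 Lg hLg F v hv
  have hlpw : ∀ b : F, Lpw p v b → ‖lam Lg v b‖ ≤ ‖(p : ℂ_[p])‖ * ‖lam Lg v x₀‖ := fun b hb =>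
    lam_lpw hmul hcon h0 hmax (lpw_ne hB hb) hb
  have hAG : ∀ a : F, AG Lg v a → ‖lam Lg v a‖ ≤ ‖(p : ℂ_[p])‖ * ‖lam Lg v x₀‖ := by
    rintro a ⟨_, x, hx, h⟩
    exact h.trans (mul_le_mul_of_nonneg_left (hmax x hx) (norm_nonneg _))
  refine ⟨?_, ?_⟩
  · intro a b ha hb
    refine ⟨mul_ne_zero ha.1 (lpw_ne hB hb), x₀, hx₀, ?_⟩
    rw [hmul a b ha.1 (lpw_ne hB hb)]
    exact ultra _ _ (hAG a ha) (hlpw b hb)
  · intro B hB1 hB2
    have hpow : ∀ n : ℕ, lam Lg v (x₀ ^ n) = (n : ℂ_[p]) * lam Lg v x₀ := by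
      intro n
      induction n with
      | zero =>
        rw [pow_zero, Nat.cast_zero, zero_mul]
        have h1 := hmul 1 1 one_ne_zero one_ne_zero
        rw [mul_one] at h1
        exact left_eq_add.1 h1
      | succ n ih =>
        rw [pow_succ, hmul _ _ (pow_ne_zero _ hx₀) hx₀, ih]
        push_cast
        ring
    let f : F × ℕ → F := fun x => x.1 * x₀ ^ x.2
    have hlf : ∀ x : F × ℕ, x.1 ≠ 0 → lam Lg v (f x) = lam Lg v x.1 + (x.2 : ℂ_[p]) * lam Lg v x₀ := by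
      intro x hx
      show lam Lg v (x.1 * x₀ ^ x.2) = _
      rw [hmul _ _ hx (pow_ne_zero _ hx₀), hpow]
    have key : ∀ x ∈ B ×ˢ range p, ∀ y ∈ B ×ˢ range p, Lpw p v (f x / f y) → x = y := by
      rintro ⟨b, j⟩ hx ⟨b', j'⟩ hy h
      rw [mem_product, mem_range] at hx hy
      obtain ⟨hb, hj⟩ := hx
      obtain ⟨hb', hj'⟩ := hy
      simp only at hb hj hb' hj'
      have hb0 := (hB1 b hb).1
      have hb0' := (hB1 b' hb').1
      have hfx : f (b, j) ≠ 0 := mul_ne_zero hb0 (pow_ne_zero _ hx₀)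
      have hfy : f (b', j') ≠ 0 := mul_ne_zero hb0' (pow_ne_zero _ hx₀)
      have h1 : lam Lg v (f (b, j)) = lam Lg v (f (b, j) / f (b', j')) + lam Lg v (f (b', j')) := by
        rw [← hmul _ _ (div_ne_zero hfx hfy) hfy, div_mul_cancel₀ _ hfy]
      rw [hlf (b, j) hb0, hlf (b', j') hb0'] at h1
      simp only at h1
      have h2 : (((j : ℤ) - (j' : ℤ) : ℤ) : ℂ_[p]) * lam Lg v x₀ =
          lam Lg v (f (b, j) / f (b', j')) + (lam Lg v b' - lam Lg v b) := by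
        push_cast
        linear_combination h1
      have h3 : ‖(((j : ℤ) - (j' : ℤ) : ℤ) : ℂ_[p]) * lam Lg v x₀‖ ≤ ‖(p : ℂ_[p])‖ * ‖lam Lg v x₀‖ := by
        rw [h2]
        exact ultra _ _ (hlpw _ h) (ultra_sub _ _ (hAG _ (hB1 b' hb')) (hAG _ (hB1 b hb)))
      rw [norm_mul] at h3
      have h4 := dvd_of_norm_le (le_of_mul_le_mul_right h3 (norm_pos_iff.2 h0))
      have h5 : (j : ℤ) - (j' : ℤ) = 0 := by
        apply Int.eq_zero_of_abs_lt_dvd h4
        rw [abs_lt]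
        constructor <;> omega
      have h6 : j = j' := by omega
      subst h6
      have h7 : f (b, j) / f (b', j) = b / b' := by
        show b * x₀ ^ j / (b' * x₀ ^ j) = _
        exact mul_div_mul_right _ _ (pow_ne_zero _ hx₀)
      rw [h7] at h
      have h8 : b = b' := by
        by_contra hne
        exact hB2 b hb b' hb' hne h
      rw [h8]
    have hfinj : Set.InjOn f (B ×ˢ range p : Finset (F × ℕ)) := by
      intro x hx y hy hxy
      refine key x hx y hy ?_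
      rw [hxy]
      refine lpw_div_self hB v ?_
      have hy' := mem_coe.1 hy
      rw [mem_product] at hy'
      exact mul_ne_zero (hB1 _ hy'.1).1 (pow_ne_zero _ hx₀)
    have hcard := hV p hp2 F ζ hζ v ((B ×ˢ range p).image f) (by
        intro b hb
        obtain ⟨x, hx, rfl⟩ := mem_image.1 hb
        rw [mem_product] at hx
        exact mul_ne_zero (hB1 _ hx.1).1 (pow_ne_zero _ hx₀))
      (by
        intro b hb b' hb' hne h
        obtain ⟨x, hx, rfl⟩ := mem_image.1 hb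
        obtain ⟨y, hy, rfl⟩ := mem_image.1 hb'
        exact hne (congrArg f (key x hx y hy h)))
    rw [card_image_of_injOn hfinj, card_product, card_range] at hcard
    have h9 : p ^ (2 + dv p v) = p ^ (dv p v + 1) * p := by
      rw [← pow_succ]
      congr 1
      ring
    rw [h9] at hcard
    exact Nat.le_of_mul_le_mul_right hcard hp.out.pos

end Pool.Agent.Q190.GK
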